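import Pool.Agent.H809Z.Ball.Defs

open scoped Topology ENNReal InnerProductSpace
open Filter Metric Set MeasureTheory

namespace Pool.Agent.H809Z.Ball

namespace ImproveAux

variable {n : ℕ}

lemma dd_smul_le {ζ w : En n} (c : ℂ) (hc : ‖c‖ ≤ 1) :
    dd ζ (c • w) ≤ ‖1 - c‖ + dd ζ w := by
  unfold dd
  rw [inner_smul_left]
  have e : 1 - (starRingEnd ℂ) c * ⟪w, ζ⟫_ℂ =
      (starRingEnd ℂ) (1 - c) + (starRingEnd ℂ) c * (1 - ⟪w, ζ⟫_ℂ) := by
    simp only [map_sub, map_one]; ring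
  rw [e]
  refine (norm_add_le _ _).trans ?_
  rw [Complex.norm_conj, norm_mul, Complex.norm_conj]
  have := norm_nonneg (1 - ⟪w, ζ⟫_ℂ)
  nlinarith

/-- geometry of the chain: the points stay in the ball and in the non-isotropic ball -/
lemma chain_geom {ζ x' : En n} {r : ℝ} (hζ : ‖ζ‖ = 1) (hr : 0 < r) (hr2 : r < 1 / 2)
    (hx' : ‖x'‖ ≤ 1 - r / 2) (hd : dd ζ x' ≤ 5 * r / 2) {t : ℝ} (ht : t ∈ Icc (0 : ℝ) 1) {y : ℂ}
    (hy : ‖y - t‖ < 1 / 100) :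
    ‖((1 - r : ℝ) : ℂ) • ζ + y • (x' - ((1 - r : ℝ) : ℂ) • ζ)‖ < 1 ∧
      dd ζ (((1 - r : ℝ) : ℂ) • ζ + y • (x' - ((1 - r : ℝ) : ℂ) • ζ)) ≤ 3 * r := by
  obtain ⟨ht0, ht1⟩ := ht
  set x1 : En n := ((1 - r : ℝ) : ℂ) • ζ with hx1
  set D : En n := x' - x1 with hD
  set η : ℂ := y - t with hη
  have hζζ : ⟪ζ, ζ⟫_ℂ = 1 := by
    rw [inner_self_eq_norm_sq_to_K, hζ]; simp
  have hx1n : ‖x1‖ = 1 - r := by
    rw [hx1, norm_smul, hζ, Complex.norm_real, Real.norm_of_nonneg (by linarith), mul_one]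
  have ha1 : 1 - ⟪x1, ζ⟫_ℂ = (r : ℂ) := by
    rw [hx1, inner_smul_left, hζζ, Complex.conj_ofReal]; push_cast; ring
  have hDζ : ⟪D, ζ⟫_ℂ = (r : ℂ) - (1 - ⟪x', ζ⟫_ℂ) := by
    rw [hD, inner_sub_left, ← ha1]; ring
  have hDζn : ‖⟪D, ζ⟫_ℂ‖ ≤ 7 * r / 2 := by
    rw [hDζ]
    refine (norm_sub_le _ _).trans ?_
    rw [Complex.norm_real, Real.norm_of_nonneg hr.le]
    unfold dd at hd
    linarith
  set xt : En n := x1 + (t : ℂ) • D with hxt
  have hp : x1 + y • D = xt + η • D := by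
    rw [hxt, hη, add_assoc, ← add_smul]; congr 2; ring
  have hxt2 : xt = ((1 - t : ℝ) : ℂ) • x1 + (t : ℂ) • x' := by
    rw [hxt, hD, smul_sub]; push_cast; rw [sub_smul, one_smul]; abel
  have hxtn : ‖xt‖ ≤ 1 - r / 2 := by
    rw [hxt2]
    refine (norm_add_le _ _).trans ?_
    rw [norm_smul _ x1, norm_smul _ x', Complex.norm_real, Complex.norm_real,
      Real.norm_of_nonneg (by linarith), Real.norm_of_nonneg ht0, hx1n]
    nlinarith
  set σ : ℝ := Real.sqrt (5 * r) with hσ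
  have hσ0 : 0 ≤ σ := Real.sqrt_nonneg _
  have hσ2 : σ ^ 2 = 5 * r := Real.sq_sqrt (by linarith)
  have h1 : ‖x' - ζ‖ ≤ σ := by
    have := norm_sub_sq_le_dd (x := ζ) (w := x') hζ.le (by linarith)
    apply le_of_sq_le_sq _ hσ0 |>.trans le_rfl
    linarith
  have h2 : ‖x1 - ζ‖ ≤ σ := by
    have e : x1 - ζ = ((-r : ℝ) : ℂ) • ζ := by
      rw [hx1]; push_cast; rw [sub_smul, one_smul, neg_smul]; abel
    rw [e, norm_smul, hζ, Complex.norm_real, mul_one, Real.norm_eq_abs, abs_neg, abs_of_pos hr]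
    apply le_of_sq_le_sq _ hσ0 |>.trans le_rfl
    nlinarith
  have h3 : ‖xt - ζ‖ ≤ σ := by
    have e : xt - ζ = ((1 - t : ℝ) : ℂ) • (x1 - ζ) + (t : ℂ) • (x' - ζ) := by
      rw [hxt2]; push_cast; simp only [smul_sub, sub_smul, one_smul]; abel
    rw [e]
    refine (norm_add_le _ _).trans ?_
    rw [norm_smul, norm_smul, Complex.norm_real, Complex.norm_real,
      Real.norm_of_nonneg (by linarith), Real.norm_of_nonneg ht0]
    nlinarith
  have h4 : ‖D‖ ≤ 2 * σ := by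
    have e : D = (x' - ζ) - (x1 - ζ) := by rw [hD]; abel
    rw [e]
    refine (norm_sub_le _ _).trans ?_
    linarith
  have h5 : ‖⟪D, xt⟫_ℂ‖ ≤ 27 * r / 2 := by
    have e : ⟪D, xt⟫_ℂ = ⟪D, ζ⟫_ℂ + ⟪D, xt - ζ⟫_ℂ := by rw [inner_sub_right]; ring
    rw [e]
    refine (norm_add_le _ _).trans ?_
    have := norm_inner_le_norm (𝕜 := ℂ) D (xt - ζ)
    have h6 : ‖D‖ * ‖xt - ζ‖ ≤ 2 * σ * σ := by gcongr
    nlinarith
  have hη0 := norm_nonneg η
  constructor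
  · rw [hp]
    have e := @norm_add_sq ℂ (En n) _ _ _ xt (η • D)
    have h6 : RCLike.re ⟪xt, η • D⟫_ℂ ≤ ‖η‖ * (27 * r / 2) := by
      refine (RCLike.re_le_norm _).trans ?_
      rw [inner_smul_right, norm_mul, ← inner_conj_symm xt D, RCLike.norm_conj]
      gcongr
    have h7 : ‖η • D‖ ^ 2 ≤ ‖η‖ ^ 2 * (20 * r) := by
      rw [norm_smul, mul_pow]
      have : ‖D‖ ^ 2 ≤ (2 * σ) ^ 2 := by gcongr
      have h8 : (2 * σ) ^ 2 = 20 * r := by rw [mul_pow, hσ2]; ring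
      gcongr
      linarith
    have h8 : ‖xt‖ ^ 2 ≤ (1 - r / 2) ^ 2 := by gcongr
    have h9 : ‖η‖ ^ 2 ≤ (1 / 100) ^ 2 := by gcongr
    have h10 : ‖η‖ * (27 * r / 2) ≤ 1 / 100 * (27 * r / 2) := by gcongr
    have h11 : ‖η‖ ^ 2 * (20 * r) ≤ (1 / 100) ^ 2 * (20 * r) := by gcongr
    have h12 : ‖xt + η • D‖ ^ 2 < 1 := by nlinarith
    nlinarith [norm_nonneg (xt + η • D)]
  · rw [hp]
    unfold dd at hd ⊢
    have e : 1 - ⟪xt + η • D, ζ⟫_ℂ = ((1 - t : ℝ) : ℂ) * (r : ℂ) + (t : ℂ) * (1 - ⟪x', ζ⟫_ℂ) -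
        (starRingEnd ℂ) η * ⟪D, ζ⟫_ℂ := by
      rw [inner_add_left, inner_smul_left D, hxt2, inner_add_left, inner_smul_left x1,
        inner_smul_left x', Complex.conj_ofReal, Complex.conj_ofReal, ← ha1]
      push_cast; ring
    rw [e]
    refine (norm_sub_le _ _).trans ?_
    refine (add_le_add_left (norm_add_le _ _) _).trans ?_
    rw [norm_mul, norm_mul, norm_mul, Complex.norm_real, Complex.norm_real, Complex.norm_real,
      Complex.norm_conj, Real.norm_of_nonneg (by linarith), Real.norm_of_nonneg hr.le,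
      Real.norm_of_nonneg ht0]
    have h6 : ‖η‖ * ‖⟪D, ζ⟫_ℂ‖ ≤ 1 / 100 * (7 * r / 2) := by gcongr
    have h7 : t * ‖1 - ⟪x', ζ⟫_ℂ‖ ≤ t * (5 * r / 2) := by gcongr
    nlinarith

/-- the gain along the chain -/
lemma gain : ∃ κ : ℝ, 0 < κ ∧ κ ≤ 1 / 8 ∧ ∀ (j : En n → ℂ) (ζ x' : En n) (m C r : ℝ), ‖ζ‖ = 1 →
    DifferentiableOn ℂ j (ball 0 1) → (∀ w ∈ ball (0 : En n) 1, j w ≠ 0) → 0 ≤ m → 0 < C →
    (∀ w ∈ ball (0 : En n) 1, ‖j w‖ ≤ C * dd ζ w ^ m) →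
    (∀ s ∈ Ioc (0 : ℝ) 1, ‖j (((1 - s : ℝ) : ℂ) • ζ)‖ ≤ C * s ^ (m + 1 / 8)) →
    0 < r → r < 1 / 2 → ‖x'‖ ≤ 1 - r / 2 → dd ζ x' ≤ 5 * r / 2 →
    ‖j x'‖ ≤ C * 3 ^ m * r ^ (m + κ) := by
  obtain ⟨q, hq, hq0, hq1⟩ : ∃ q : ℝ, q = (3 / 16) ^ (200 : ℕ) ∧ 0 < q ∧ q ≤ 1 :=
    ⟨_, rfl, by positivity, pow_le_one₀ (by norm_num) (by norm_num)⟩
  refine ⟨q / 8, by positivity, by linarith, ?_⟩
  intro j ζ x' m C r hζ hj hne hm hC hb hrad hr hr2 hx' hd
  set x1 : En n := ((1 - r : ℝ) : ℂ) • ζ with hx1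
  set U : ℂ → ℂ := fun y => j (x1 + y • (x' - x1)) with hU
  set B : ℝ := C * (3 * r) ^ m with hB
  have hB0 : 0 < B := by positivity
  have hch := log_chain (U := U) (B := B) (K := 200) (by norm_num) (by
    intro t ht y hy
    have hy' : ‖y - t‖ < 1 / 100 := by
      rw [mem_ball, dist_eq_norm] at hy
      norm_num at hy ⊢
      exact hy
    obtain ⟨g1, g2⟩ := chain_geom hζ hr hr2 hx' hd ht hy'
    have hmem : x1 + y • (x' - x1) ∈ ball (0 : En n) 1 := mem_ball_zero_iff.mpr g1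
    refine ⟨?_, hne _ hmem, (hb _ hmem).trans ?_⟩
    · have h1 : DifferentiableAt ℂ j (x1 + y • (x' - x1)) :=
        hj.differentiableAt (isOpen_ball.mem_nhds hmem)
      have h2 : DifferentiableAt ℂ (fun y : ℂ => x1 + y • (x' - x1)) y := by fun_prop
      exact h1.comp y h2
    · rw [hB]
      have := dd_nonneg ζ (x1 + y • (x' - x1))
      gcongr)
  rw [← hq] at hch
  have hU0 : U 0 = j x1 := by simp [hU]
  have hU1 : U 1 = j x' := by simp [hU]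
  rw [hU0, hU1] at hch
  have hx1m : x1 ∈ ball (0 : En n) 1 := by
    rw [mem_ball_zero_iff, hx1, norm_smul, hζ, Complex.norm_real,
      Real.norm_of_nonneg (by linarith)]
    linarith
  have hx'm : x' ∈ ball (0 : En n) 1 := by
    rw [mem_ball_zero_iff]; linarith
  have p0 : 0 < ‖j x1‖ := norm_pos_iff.mpr (hne _ hx1m)
  have p1 : 0 < ‖j x'‖ := norm_pos_iff.mpr (hne _ hx'm)
  have h0 : ‖j x1‖ ≤ B * r ^ (1 / 8 : ℝ) := by
    refine (hrad r ⟨hr, by linarith⟩).trans ?_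
    rw [Real.rpow_add hr, hB, mul_assoc]
    have : r ^ m ≤ (3 * r) ^ m := by gcongr; linarith
    gcongr
  have h1 : Real.log ‖j x1‖ ≤ Real.log B + 1 / 8 * Real.log r := by
    have := Real.log_le_log p0 h0
    rwa [Real.log_mul hB0.ne' (by positivity), Real.log_rpow hr] at this
  have h2 : Real.log ‖j x'‖ ≤ Real.log B + q / 8 * Real.log r := by
    have : q * (-(1 / 8 * Real.log r)) ≤ q * (Real.log B - Real.log ‖j x1‖) := by
      gcongr; linarith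
    linarith
  have h3 : ‖j x'‖ ≤ B * r ^ (q / 8) := by
    rw [← Real.log_le_log_iff p1 (by positivity), Real.log_mul hB0.ne' (by positivity),
      Real.log_rpow hr]
    exact h2
  refine h3.trans (le_of_eq ?_)
  rw [hB, Real.mul_rpow (by norm_num) hr.le, Real.rpow_add hr]
  ring

end ImproveAux

open ImproveAux in
theorem improve {n : ℕ} (hE : LemE n) : Improve n := by
  obtain ⟨κ, hκ, hκ8, hgain⟩ := gain (n := n)
  refine ⟨κ, hκ, ?_⟩
  intro j ζ m C hζ hj hne hrep hm hb hrad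
  obtain ⟨C0, μ, hC0, hμm, hμ, hjμ⟩ := hrep
  have hC : 0 < C := by
    have h0 : (0 : En n) ∈ ball (0 : En n) 1 := mem_ball_self one_pos
    have h1 := (norm_pos_iff.mpr (hne 0 h0)).trans_le (hb 0 h0)
    have h2 : 0 ≤ dd ζ 0 ^ m := Real.rpow_nonneg (dd_nonneg _ _) _
    by_contra hcon
    push Not at hcon
    nlinarith
  obtain ⟨C1, hC1, hE'⟩ := hE (⌈m⌉₊ + 1) m (m + 7 / 8) hm
    (by push_cast; linarith [Nat.ceil_lt_add_one hm]) (by linarith)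
    (by push_cast; linarith [Nat.le_ceil m]) (by linarith)
  obtain ⟨Cp, hCp, hP⟩ := poly_growth (⌈m⌉₊ + 1)
  set C2 : ℝ := C0 * C * 10 ^ m with hC2
  have hC20 : 0 ≤ C2 := by positivity
  refine ⟨C * 2 ^ κ + (Cp + 1) * (C * 3 ^ m + C1 * C2), ?_⟩
  intro w hw
  have hwn : ‖w‖ < 1 := mem_ball_zero_iff.mp hw
  set r : ℝ := dd ζ w with hr
  have hr0 : 0 < r := dd_pos hζ.le hwn
  have hpos : 0 ≤ r ^ (m + κ) := by positivity
  have hA : 0 ≤ C * 2 ^ κ := by positivity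
  have hA2 : 0 ≤ C * 3 ^ m + C1 * C2 := by positivity
  rcases le_or_gt (1 / 2) r with hr2 | hr2
  · have h1 : ‖j w‖ ≤ C * 2 ^ κ * r ^ (m + κ) := by
      refine (hb w hw).trans ?_
      have h2 : (1 : ℝ) ≤ 2 ^ κ * r ^ κ := by
        rw [← Real.mul_rpow (by norm_num) hr0.le]
        exact Real.one_le_rpow (by linarith) hκ.le
      rw [Real.rpow_add hr0, ← hr]
      have h3 : 0 ≤ C * r ^ m := by positivity
      calc C * r ^ m = C * r ^ m * 1 := by ring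
        _ ≤ C * r ^ m * (2 ^ κ * r ^ κ) := by gcongr
        _ = _ := by ring
    refine h1.trans ?_
    gcongr
    have : 0 ≤ (Cp + 1) * (C * 3 ^ m + C1 * C2) := by positivity
    linarith
  · set x0 : En n := ((1 - r : ℝ) : ℂ) • w with hx0
    have hc0 : ‖((1 - r : ℝ) : ℂ)‖ = 1 - r := by
      rw [Complex.norm_real, Real.norm_of_nonneg (by linarith)]
    have hx0n : ‖x0‖ ≤ 1 - r := by
      rw [hx0, norm_smul, hc0]
      nlinarith [norm_nonneg w]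
    have hd0 : dd ζ x0 ≤ 2 * r := by
      refine (dd_smul_le _ (by rw [hc0]; linarith)).trans ?_
      have e : (1 : ℂ) - ((1 - r : ℝ) : ℂ) = (r : ℂ) := by push_cast; ring
      rw [e, Complex.norm_real, Real.norm_of_nonneg hr0.le]
      linarith
    have hμ' : ∀ y ∈ ball (0 : En n) 1, ‖μ y‖ ≤ C2 * (1 - ‖y‖) * dd x0 y ^ m := by
      intro y hy
      have hyn : ‖y‖ < 1 := mem_ball_zero_iff.mp hy
      have h1 : r ≤ dd x0 y := by
        have := le_dd x0 y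
        nlinarith [norm_nonneg x0, norm_nonneg y]
      have h2 : dd ζ y ≤ 10 * dd x0 y := by
        have := dd_triangle (x := x0) (y := y) (z := ζ) (by linarith) hyn.le hζ.le
        linarith
      have h3 : dd ζ y ^ m ≤ 10 ^ m * dd x0 y ^ m := by
        rw [← Real.mul_rpow (by norm_num) (dd_nonneg _ _)]
        have := dd_nonneg ζ y
        gcongr
      have h4 : 0 ≤ 1 - ‖y‖ := by linarith
      calc ‖μ y‖ ≤ C0 * ‖j y‖ * (1 - ‖y‖) := hμ y hy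
        _ ≤ C0 * (C * dd ζ y ^ m) * (1 - ‖y‖) := by gcongr; exact hb y hy
        _ ≤ C0 * (C * (10 ^ m * dd x0 y ^ m)) * (1 - ‖y‖) := by gcongr
        _ = _ := by rw [hC2]; ring
    obtain ⟨e, he⟩ := hE' μ C2 x0 w hC20 hμm (by linarith) hwn.le hμ'
    have hpt : ∀ τ : ℂ, x0 + τ • w = (((1 - r : ℝ) : ℂ) + τ) • w := by
      intro τ; rw [hx0, add_smul]
    have hcn : ∀ τ : ℂ, ‖((1 - r : ℝ) : ℂ) + τ‖ ≤ 1 - r + ‖τ‖ := by
      intro τ; refine (norm_add_le _ _).trans ?_; rw [hc0]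
    have hγ : r ^ (m + 7 / 8) ≤ r ^ (m + κ) :=
      Real.rpow_le_rpow_of_exponent_ge hr0 (by linarith) (by linarith)
    have happ : ∀ τ : ℂ, ‖τ‖ ≤ r →
        ‖j (x0 + τ • w) - ∑ i ∈ Finset.range (⌈m⌉₊ + 1), e i * τ ^ i‖ ≤
          C1 * C2 * r ^ (m + κ) := by
      intro τ hτ
      have h1 : ‖x0 + τ • w‖ < 1 := by
        rw [hpt, norm_smul]
        have := hcn τ
        nlinarith [norm_nonneg w, norm_nonneg (((1 - r : ℝ) : ℂ) + τ)]
      rw [hjμ _ (mem_ball_zero_iff.mpr h1)]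
      refine (he τ (by linarith) h1.le).trans ?_
      have h2 : ‖τ‖ ^ (m + 7 / 8) ≤ r ^ (m + 7 / 8) := by gcongr
      have h3 := h2.trans hγ
      gcongr
    have hsmall : ∀ τ : ℂ, ‖τ‖ < r / 2 → ‖∑ i ∈ Finset.range (⌈m⌉₊ + 1), e i * τ ^ i‖ ≤
        (C * 3 ^ m + C1 * C2) * r ^ (m + κ) := by
      intro τ hτ
      have h1 := happ τ (by linarith)
      have hc1 := hcn τ
      have h2 : ‖j (x0 + τ • w)‖ ≤ C * 3 ^ m * r ^ (m + κ) := by
        refine hgain j ζ _ m C r hζ hj hne hm hC hb hrad hr0 hr2 ?_ ?_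
        · rw [hpt, norm_smul]
          nlinarith [norm_nonneg w, norm_nonneg (((1 - r : ℝ) : ℂ) + τ)]
        · rw [hpt]
          refine (dd_smul_le _ (by linarith)).trans ?_
          have e1 : (1 : ℂ) - (((1 - r : ℝ) : ℂ) + τ) = (r : ℂ) - τ := by push_cast; ring
          have h3 := norm_sub_le (r : ℂ) τ
          rw [Complex.norm_real, Real.norm_of_nonneg hr0.le] at h3
          rw [e1]
          linarith
      have h3 : ‖∑ i ∈ Finset.range (⌈m⌉₊ + 1), e i * τ ^ i‖ ≤ ‖j (x0 + τ • w)‖ +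
          ‖j (x0 + τ • w) - ∑ i ∈ Finset.range (⌈m⌉₊ + 1), e i * τ ^ i‖ := by
        have := norm_sub_le (j (x0 + τ • w))
          (j (x0 + τ • w) - ∑ i ∈ Finset.range (⌈m⌉₊ + 1), e i * τ ^ i)
        rwa [sub_sub_cancel] at this
      linarith
    have h4 := hP e r _ hr0 hsmall
    have h5 := happ (r : ℂ) (by rw [Complex.norm_real, Real.norm_of_nonneg hr0.le])
    have h6 : x0 + (r : ℂ) • w = w := by
      rw [hpt]; push_cast; simp
    rw [h6] at h5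
    have h7 : ‖j w‖ ≤ ‖∑ i ∈ Finset.range (⌈m⌉₊ + 1), e i * (r : ℂ) ^ i‖ +
        ‖j w - ∑ i ∈ Finset.range (⌈m⌉₊ + 1), e i * (r : ℂ) ^ i‖ := by
      have := norm_add_le (∑ i ∈ Finset.range (⌈m⌉₊ + 1), e i * (r : ℂ) ^ i)
        (j w - ∑ i ∈ Finset.range (⌈m⌉₊ + 1), e i * (r : ℂ) ^ i)
      rwa [add_sub_cancel] at this
    have h8 : 0 ≤ C * 3 ^ m * r ^ (m + κ) := by positivity
    have h9 : 0 ≤ C * 2 ^ κ * r ^ (m + κ) := by positivity
    calc ‖j w‖ ≤ Cp * ((C * 3 ^ m + C1 * C2) * r ^ (m + κ)) + C1 * C2 * r ^ (m + κ) := by linarith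
      _ ≤ _ := by nlinarith

end Pool.Agent.H809Z.Ball
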